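import Pool.Agent.N283.AL.Pos
import Pool.Agent.N283.AL.Neg

/-!
# Relative separation of the boundary components of ALLC planar metric domains

Question Q1 of the problem. The first part of `result` is a quantitative yes, with
`δ(lam) = 1 / (100 lam⁴)`, whenever the closed balls of the completion are compact (in particular
if the completion is compact). The second part shows that this hypothesis cannot be dropped:
without it the answer is no, already for `lam = 8`.

The definitions `IsSphereDomain`, `ALLC`, `bdry` and `IsBdryComponent` are in
`Pool.Agent.N283.AL.Defs`. A metric space is given as a subset `X` of a metric space `P`; its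
completion is `closure X` (in the first part `closure X` is complete because its closed balls are
compact, in the second part `P` is complete).
-/

set_option autoImplicit false

open Set Metric Pool.Agent.N283.AL

namespace Pool.Agent.Results.MP_eb7e96_an.RelativeSeparation

theorem result :
    -- quantitative relative separation if the closed balls of the completion are compact
    (∀ (P : Type) [MetricSpace P] (X : Set P) (lam : ℝ), 1 ≤ lam →
      IsSphereDomain X → ALLC X lam →
      (∀ (a : P) (r : ℝ), IsCompact (closure X ∩ closedBall a r)) →
      ∀ E F : Set P, IsBdryComponent X E → IsBdryComponent X F → E ≠ F →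
      ∀ x ∈ E, ∀ y ∈ F,
        min (ediam E) (ediam F) ≤ ENNReal.ofReal (100 * lam ^ 4) * edist x y) ∧
    -- no relative separation, for a fixed constant, in general
    (∀ δ : ℝ, 0 < δ → ∃ (P : Type) (_ : MetricSpace P) (X : Set P),
      CompleteSpace P ∧ IsSphereDomain X ∧ ALLC X 8 ∧
      ∃ E F : Set P, IsBdryComponent X E ∧ IsBdryComponent X F ∧ E ≠ F ∧
        Bornology.IsBounded E ∧ Bornology.IsBounded F ∧
        ∃ x ∈ E, ∃ y ∈ F, dist x y < δ * min (diam E) (diam F)) := by
  refine ⟨?_, fun δ hδ => Pool.Agent.N283.AL.Neg.neg δ hδ⟩
  intro P _ X lam h1 hX hA hc E F hE hF hne x hx y hy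
  exact pos hc hX h1 hA hE hF hne hx hy

end Pool.Agent.Results.MP_eb7e96_an.RelativeSeparation
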